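import Pool.Agent.Run7.h450.CS.Iface
/-! # Piece SGN (helper617) -/
set_option autoImplicit false
open Filter Topology Matrix MeasureTheory

namespace Run7.h617.CL
open Run7.h450.CL

theorem wd_succ {R : Type} [Monoid R] {p : ℕ} (u : Fin (p + 1) → R) :
    wd u = u 0 * wd (fun k => u k.succ) := by
  unfold wd
  rw [List.ofFn_succ, List.prod_cons]

/-- adjacent swap -/
theorem wd_adj {R : Type} [Ring R] : ∀ (m : ℕ) (u : Fin (m + 1) → R) (i : Fin m),
    u i.castSucc * u i.succ = -(u i.succ * u i.castSucc) →
    wd (fun k => u (Equiv.swap i.castSucc i.succ k)) = - wd u := by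
  intro m
  induction m with
  | zero => intro u i; exact i.elim0
  | succ m ih =>
    intro u i
    refine Fin.cases ?_ ?_ i
    · intro h
      rw [wd_succ, wd_succ, wd_succ u, wd_succ (fun k => u k.succ)]
      have e : ∀ k : Fin m, Equiv.swap (0 : Fin (m + 1)).castSucc (0 : Fin (m + 1)).succ k.succ.succ
          = k.succ.succ := by
        intro k
        apply Equiv.swap_apply_of_ne_of_ne
        · intro h1
          have := congrArg Fin.val h1
          simp at this
        · intro h1
          have := congrArg Fin.val h1
          simp at this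
      simp only [e]
      have e0 : (0 : Fin (m + 1 + 1)) = (0 : Fin (m + 1)).castSucc := rfl
      have e1 : Equiv.swap (0 : Fin (m + 1)).castSucc (0 : Fin (m + 1)).succ 0 =
          (0 : Fin (m + 1)).succ := Equiv.swap_apply_left _ _
      have e2 : Equiv.swap (0 : Fin (m + 1)).castSucc (0 : Fin (m + 1)).succ
          (0 : Fin (m + 1)).succ = (0 : Fin (m + 1)).castSucc := Equiv.swap_apply_right _ _
      rw [e1, e2, ← mul_assoc, ← mul_assoc]
      have h' : u (0 : Fin (m + 1)).succ * u (0 : Fin (m + 1)).castSucc =
          -(u (0 : Fin (m + 1)).castSucc * u (0 : Fin (m + 1)).succ) := by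
        rw [h, neg_neg]
      rw [h', neg_mul]
      rfl
    · intro j h
      rw [wd_succ, wd_succ u]
      have e0 : Equiv.swap j.succ.castSucc j.succ.succ (0 : Fin (m + 1 + 1)) = 0 := by
        apply Equiv.swap_apply_of_ne_of_ne
        · intro h1
          have := congrArg Fin.val h1
          simp at this
        · intro h1
          have := congrArg Fin.val h1
          simp at this
      have e1 : ∀ k : Fin (m + 1), Equiv.swap j.succ.castSucc j.succ.succ k.succ =
          (Equiv.swap j.castSucc j.succ k).succ := by
        intro k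
        have := (Fin.succ_injective (m + 1)).swap_apply j.castSucc j.succ k
        exact this
      simp only [e0, e1]
      rw [ih (fun k => u k.succ) j h, mul_neg]

theorem cl_comp {K : Type} [Fintype K] [DecidableEq K] {m : ℕ} {γ : Fin m → Matrix K K ℂ}
    (h : Cl γ) (σ : Equiv.Perm (Fin m)) : Cl (fun k => γ (σ k)) :=
  ⟨fun _ => h.sq _, fun _ _ hjk => h.anti _ _ (fun e => hjk (σ.injective e))⟩

theorem t_SGN : S_SGN := by
  intro K _ _ m γ hγ σ
  cases m with
  | zero =>
    have e : σ = 1 := Subsingleton.elim _ _
    rw [e]
    simp [sg]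
  | succ n =>
    have key : ∀ τ ∈ Submonoid.closure (Set.range fun i : Fin n => Equiv.swap i.castSucc i.succ),
        ∀ γ : Fin (n + 1) → Matrix K K ℂ, Cl γ → wd (fun k => γ (τ k)) = sg τ • wd γ := by
      intro τ hτ
      induction hτ using Submonoid.closure_induction with
      | mem x hx =>
        obtain ⟨i, rfl⟩ := hx
        intro γ hγ
        have hne : i.castSucc ≠ i.succ := (Fin.castSucc_lt_succ).ne
        rw [wd_adj n γ i (hγ.anti _ _ hne)]
        simp [sg, Equiv.Perm.sign_swap hne]
      | one =>
        intro γ hγ
        simp [sg]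
      | mul x y hx hy ihx ihy =>
        intro γ hγ
        have h1 := ihy (fun k => γ (x k)) (cl_comp hγ x)
        have h2 := ihx γ hγ
        simp only [Equiv.Perm.mul_apply]
        rw [h1, h2, smul_smul]
        congr 1
        simp [sg, mul_comm]
    refine key σ ?_ γ hγ
    rw [Equiv.Perm.mclosure_swap_castSucc_succ]
    trivial

end Run7.h617.CL
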